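import Pool.Agent.H35.SW.FinDefs

/-!
HART: Hartogs' theorem in a model of ZF.
-/

set_option linter.unusedVariables false
set_option synthInstance.maxSize 100000

namespace SW

section
variable {M : Type} [SetStr M] [ZF M]

/-- `f` is an injection from `a` to `U` -/
def HInj (U a f : M) : Prop :=
  (∀ b : M, E b a → ∃ y : M, E y U ∧ E (opair b y) f) ∧
  (∀ b y y' : M, E b a → E (opair b y) f → E (opair b y') f → y = y') ∧
  (∀ b b' y : M, E b a → E b' a → E (opair b y) f → E (opair b' y) f → b = b')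

theorem HInj_df : Cl3 (fun U a f : M => HInj U a f) := by unfold HInj; infer_instance

instance {n : ℕ} {t s u : (Fin n → M) → M} [ht : DfT t] [hs : DfT s] [hu : DfT u] :
    Df (fun v => HInj (t v) (s v) (u v)) := HInj_df.comp3 ht hs hu

/-- `R` is the order transported by `f` -/
def HCode (a f R : M) : Prop := ∀ z : M, E z R ↔ ∃ b b' y y' : M, E b a ∧ E b' a ∧
  (E b b' ∨ b = b') ∧ E (opair b y) f ∧ E (opair b' y') f ∧ z = opair y y'

theorem HCode_df : Cl3 (fun a f R : M => HCode a f R) := by unfold HCode; infer_instance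

instance {n : ℕ} {t s u : (Fin n → M) → M} [ht : DfT t] [hs : DfT s] [hu : DfT u] :
    Df (fun v => HCode (t v) (s v) (u v)) := HCode_df.comp3 ht hs hu

/-- `a` is an ordinal with code `R` -/
def HOf (U R a : M) : Prop := Ord a ∧ ∃ f : M, HInj U a f ∧ HCode a f R

theorem HOf_df : Cl3 (fun a f R : M => HOf a f R) := by unfold HOf; infer_instance

instance {n : ℕ} {t s u : (Fin n → M) → M} [ht : DfT t] [hs : DfT s] [hu : DfT u] :
    Df (fun v => HOf (t v) (s v) (u v)) := HOf_df.comp3 ht hs hu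

theorem hart_key {U R a f a' f' : M} (ha : Ord a) (ha' : Ord a') (hf : HInj U a f)
    (hf' : HInj U a' f') (hc : HCode a f R) (hc' : HCode a' f' R) :
    ∀ x b y : M, E x a' → E b a → E (opair x y) f' → E (opair b y) f → b = x := by
  intro x
  refine mem_induction (C := fun x : M => ∀ b y : M, E x a' → E b a → E (opair x y) f' →
    E (opair b y) f → b = x) inferInstance ?_ x
  intro x ih b y hx hb hxy hby
  refine ext fun z => ⟨fun hz => ?_, fun hz => ?_⟩
  · have hza : E z a := ha.trans hb hz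
    obtain ⟨w, hwU, hzw⟩ := hf.1 z hza
    have h1 : E (opair w y) R := (hc _).2 ⟨z, b, w, y, hza, hb, Or.inl hz, hzw, hby, rfl⟩
    obtain ⟨c, c', u, u', hca, hca', hcc, hcu, hcu', he⟩ := (hc' _).1 h1
    rw [opair_inj] at he
    obtain ⟨rfl, rfl⟩ := he
    have h2 : c' = x := hf'.2.2 _ _ _ hca' hx hcu' hxy
    subst h2
    rcases hcc with hcc | rfl
    · have h3 := ih c hcc z w hca hza hcu hzw
      rw [h3]; exact hcc
    · exfalso
      have h4 : w = y := hf'.2.1 _ _ _ hx hcu hxy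
      rw [h4] at hzw
      have h5 := hf.2.2 _ _ _ hza hb hzw hby
      rw [h5] at hz
      exact not_mem_self _ hz
  · have hza : E z a' := ha'.trans hx hz
    obtain ⟨w, hwU, hzw⟩ := hf'.1 z hza
    have h1 : E (opair w y) R := (hc' _).2 ⟨z, x, w, y, hza, hx, Or.inl hz, hzw, hxy, rfl⟩
    obtain ⟨c, c', u, u', hca, hca', hcc, hcu, hcu', he⟩ := (hc _).1 h1
    rw [opair_inj] at he
    obtain ⟨rfl, rfl⟩ := he
    have h2 : c' = b := hf.2.2 _ _ _ hca' hb hcu' hby
    subst h2
    rcases hcc with hcc | rfl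
    · have h3 := ih z hz c w hza hca hzw hcu
      rw [← h3]; exact hcc
    · exfalso
      have h4 : w = y := hf.2.1 _ _ _ hb hcu hby
      rw [h4] at hzw
      have h5 := hf'.2.2 _ _ _ hza hx hzw hxy
      rw [h5] at hz
      exact not_mem_self _ hz

theorem hart_uniq {U R a a' : M} (h : HOf U R a) (h' : HOf U R a') : a = a' := by
  obtain ⟨ha, f, hf, hc⟩ := h
  obtain ⟨ha', f', hf', hc'⟩ := h'
  refine ext fun x => ⟨fun hx => ?_, fun hx => ?_⟩
  · obtain ⟨y, hy, hxy⟩ := hf.1 x hx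
    have h1 : E (opair y y) R := (hc _).2 ⟨x, x, y, y, hx, hx, Or.inr rfl, hxy, hxy, rfl⟩
    obtain ⟨c, c', u, u', hca, hca', hcc, hcu, hcu', he⟩ := (hc' _).1 h1
    rw [opair_inj] at he
    obtain ⟨rfl, rfl⟩ := he
    have := hart_key ha ha' hf hf' hc hc' c x y hca hx hcu hxy
    rw [this]; exact hca
  · obtain ⟨y, hy, hxy⟩ := hf'.1 x hx
    have h1 : E (opair y y) R := (hc' _).2 ⟨x, x, y, y, hx, hx, Or.inr rfl, hxy, hxy, rfl⟩
    obtain ⟨c, c', u, u', hca, hca', hcc, hcu, hcu', he⟩ := (hc _).1 h1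
    rw [opair_inj] at he
    obtain ⟨rfl, rfl⟩ := he
    have := hart_key ha ha' hf hf' hc hc' x c y hx hca hxy hcu
    rw [← this]; exact hca

end

/-- HART -/
theorem hart : HARTStmt := by
  intro M _ _ U
  obtain ⟨a, ha, hna⟩ := exists_ord_not_mem
    (img (pow (prod U U)) (fun R : M => the (fun a : M => HOf U R a)))
  refine ⟨a, ha, ?_⟩
  rintro ⟨f, h1, h2, h3⟩
  apply hna
  rw [mem_img]
  have hf : HInj U a f := ⟨h1, h2, h3⟩
  refine ⟨sep (prod U U) (fun z : M => ∃ b b' y y' : M, E b a ∧ E b' a ∧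
    (E b b' ∨ b = b') ∧ E (opair b y) f ∧ E (opair b' y') f ∧ z = opair y y'), ?_, ?_⟩
  · rw [mem_pow]
    intro z hz
    rw [mem_sep] at hz
    exact hz.1
  · have hR : HOf U (sep (prod U U) (fun z : M => ∃ b b' y y' : M, E b a ∧ E b' a ∧
        (E b b' ∨ b = b') ∧ E (opair b y) f ∧ E (opair b' y') f ∧ z = opair y y')) a := by
      refine ⟨ha, f, hf, fun z => ?_⟩
      rw [mem_sep]
      constructor
      · exact fun h => h.2
      · rintro ⟨b, b', y, y', hb, hb', hbb, hy, hy', rfl⟩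
        refine ⟨?_, b, b', y, y', hb, hb', hbb, hy, hy', rfl⟩
        rw [mem_prod]
        obtain ⟨u, hu, hbu⟩ := hf.1 b hb
        obtain ⟨u', hu', hbu'⟩ := hf.1 b' hb'
        rw [hf.2.1 _ _ _ hb hy hbu, hf.2.1 _ _ _ hb' hy' hbu']
        exact ⟨hu, hu'⟩
    exact (the_eq hR (fun z hz => hart_uniq hz hR)).symm

end SW
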