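import Pool.Agent.H35.SW.CDefs

/-!
HTOT: the ordinal step function is total.
-/

set_option linter.unusedVariables false
set_option synthInstance.maxSize 100000

namespace SW

section
variable {M : Type} [SetStr M] [ZF M]

theorem htot_triple {a b c R : M} : TripleIn a b c R ↔ E (opair (opair a b) c) R := by
  unfold TripleIn
  constructor
  · rintro ⟨y, hy, h⟩
    rw [isOP_iff] at hy
    rw [pairIn_iff] at h
    rwa [hy] at h
  · intro h
    exact ⟨opair a b, isOP_iff.2 rfl, pairIn_iff.2 h⟩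

/-- the section of `S` at `b` -/
noncomputable def sect (K l S b : M) : M :=
  sep (prod K l) (fun z : M => ∃ m d : M, z = opair m d ∧ E (opair (opair b m) d) S)

theorem sect_df (K l S : M) : Fn1 (fun b : M => sect K l S b) := by
  unfold sect; infer_instance

instance {K l S : M} {n : ℕ} {t : (Fin n → M) → M} [ht : DfT t] :
    DfT (fun v => sect K l S (t v)) :=
  (sect_df K l S).comp1 ht

theorem mem_sect {K l S b m d : M} : E (opair m d) (sect K l S b) ↔
    (E m K ∧ E d l) ∧ E (opair (opair b m) d) S := by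
  unfold sect
  rw [mem_sep, mem_prod]
  constructor
  · rintro ⟨h1, m', c', h2, h3⟩
    rw [opair_inj] at h2
    obtain ⟨rfl, rfl⟩ := h2
    exact ⟨h1, h3⟩
  · rintro ⟨h1, h2⟩
    exact ⟨h1, m, d, rfl, h2⟩

theorem exists_not_inj (hart : HartStmt M) (K : M) : ∃ k : M, Ord k ∧ ¬ Inj K k := by
  obtain ⟨a, ha, hna⟩ := hart (pow K)
  refine ⟨a, ha, ?_⟩
  rintro ⟨F, hF⟩
  apply hna
  have hdf : Fn1 (fun b : M => sep K (fun m : M => E (opair b m) F)) := inferInstance
  refine ⟨gr a (fun b : M => sep K (fun m : M => E (opair b m) F)), ?_, ?_, ?_⟩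
  · intro b hb
    refine ⟨_, ?_, (opair_mem_gr hdf).2 ⟨hb, rfl⟩⟩
    rw [mem_pow]
    intro z hz
    rw [mem_sep] at hz
    exact hz.1
  · intro b y y' hb h1 h2
    rw [((opair_mem_gr hdf).1 h1).2, ((opair_mem_gr hdf).1 h2).2]
  · intro b b' y hb hb' h1 h2
    have e1 := ((opair_mem_gr hdf).1 h1).2
    have e2 := ((opair_mem_gr hdf).1 h2).2
    by_contra hne
    obtain ⟨m, hm, hmm⟩ := hF b b' hb hb' hne
    apply hmm
    rw [pairIn_iff, pairIn_iff]
    have h3 : E m (sep K (fun m : M => E (opair b m) F)) ↔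
        E m (sep K (fun m : M => E (opair b' m) F)) := by rw [← e1, ← e2]
    rw [mem_sep, mem_sep] at h3
    constructor
    · intro h; exact (h3.1 ⟨hm, h⟩).2
    · intro h; exact (h3.2 ⟨hm, h⟩).2

theorem exists_not_good (hart : HartStmt M) (hpos : POSStmt) {K : M} (hK : IsHF K) {l : M}
    (hl : Ord l) : ∃ k : M, Ord k ∧ ¬ Good K k l := by
  obtain ⟨k, hk, hnk⟩ := hart (prod (pow (prod K l)) l)
  refine ⟨k, hk, ?_⟩
  rintro ⟨S, hS⟩
  obtain ⟨Q, hQ1, hQ2, hQ3⟩ := hpos M K k l S hK hk hl hS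
  apply hnk
  have hmem : ∀ b y : M, E (opair b y) (sep (prod k (prod (pow (prod K l)) l))
      (fun z : M => ∃ b c : M, E (opair b c) Q ∧ z = opair b (opair (sect K l S b) c))) ↔
      E (opair b y) (prod k (prod (pow (prod K l)) l)) ∧
        ∃ c : M, E (opair b c) Q ∧ y = opair (sect K l S b) c := by
    intro b y
    rw [mem_sep]
    constructor
    · rintro ⟨h1, b', c, h2, h3⟩
      rw [opair_inj] at h3
      obtain ⟨rfl, h3⟩ := h3
      exact ⟨h1, c, h2, h3⟩
    · rintro ⟨h1, c, h2, h3⟩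
      exact ⟨h1, b, c, h2, by rw [h3]⟩
  refine ⟨sep (prod k (prod (pow (prod K l)) l))
      (fun z : M => ∃ b c : M, E (opair b c) Q ∧ z = opair b (opair (sect K l S b) c)),
      ?_, ?_, ?_⟩
  · intro b hb
    obtain ⟨c, hc, hbc⟩ := hQ1 b hb
    have h1 : E (opair (sect K l S b) c) (prod (pow (prod K l)) l) := by
      rw [mem_prod, mem_pow]
      refine ⟨fun z hz => ?_, hc⟩
      unfold sect at hz
      rw [mem_sep] at hz
      exact hz.1
    refine ⟨opair (sect K l S b) c, h1, (hmem _ _).2 ⟨?_, c, hbc, rfl⟩⟩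
    rw [mem_prod]
    exact ⟨hb, h1⟩
  · intro b y y' hb h1 h2
    obtain ⟨_, c, hc, rfl⟩ := (hmem _ _).1 h1
    obtain ⟨_, c', hc', rfl⟩ := (hmem _ _).1 h2
    rw [hQ2 b c c' hb hc hc']
  · intro b b' y hb hb' h1 h2
    obtain ⟨_, c, hc, rfl⟩ := (hmem _ _).1 h1
    obtain ⟨_, c', hc', he⟩ := (hmem _ _).1 h2
    rw [opair_inj] at he
    obtain ⟨he, rfl⟩ := he
    refine hQ3 b b' c hb hb' ?_ hc hc'
    intro m d hm
    have h3 : ∀ m d : M, E (opair m d) (sect K l S b) ↔ E (opair m d) (sect K l S b') := by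
      intro m d; rw [he]
    have h4 := h3 m d
    rw [mem_sect, mem_sect] at h4
    rw [htot_triple, htot_triple]
    constructor
    · intro h
      exact (h4.1 ⟨⟨hm, hS.1 b m d hb hm (htot_triple.2 h)⟩, h⟩).2
    · intro h
      exact (h4.2 ⟨⟨hm, hS.1 b' m d hb' hm (htot_triple.2 h)⟩, h⟩).2

end

/-- HTOT -/
theorem htot (hhart : HARTStmt) (hpos : POSStmt) : HTOTStmt := by
  intro M _ _ K hK
  constructor
  · obtain ⟨a, ha, hn⟩ := exists_not_inj (hhart M) K
    obtain ⟨k, hk, h1, h2, _⟩ := ord_min (C := fun k : M => ¬ Inj K k) inferInstance ha hn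
    exact ⟨k, hk, h1, fun k' hk' => by
      by_contra h
      exact h2 k' hk' h⟩
  · intro l hl
    obtain ⟨a, ha, hn⟩ := exists_not_good (hhart M) hpos hK hl
    obtain ⟨k, hk, h1, h2, _⟩ := ord_min (C := fun k : M => ¬ Good K k l) inferInstance ha hn
    exact ⟨k, hk, h1, fun k' hk' => by
      by_contra h
      exact h2 k' hk' h⟩

end SW
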