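import Pool.Agent.H35.SW.CDefs

/-!
ITER: closed ordinals.
-/

set_option linter.unusedVariables false
set_option synthInstance.maxSize 100000

namespace SW

section
variable {M : Type} [SetStr M] [ZF M]

/-- the step function -/
noncomputable def hst (K l : M) : M := the (fun k : M => IsH K l k)

theorem hst_df (K : M) : Fn1 (fun l : M => hst K l) := by
  unfold hst; infer_instance

instance {K : M} {n : ℕ} {t : (Fin n → M) → M} [ht : DfT t] : DfT (fun v => hst K (t v)) :=
  (hst_df K).comp1 ht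

/-- an ordinal above `x` and above all values on `x` -/
noncomputable def hG (K x : M) : M :=
  sUn (ins (suc x) (img x (fun c : M => suc (hst K c))))

theorem hG_df (K : M) : Fn1 (fun l : M => hG K l) := by
  unfold hG; infer_instance

end

/-- ITER -/
theorem iter (htot : HTOTStmt) (hup : HUPStmt) : ITERStmt := by
  intro M _ _ K hK r hr
  obtain ⟨⟨ρ, hρ⟩, htt⟩ := htot M K hK
  obtain ⟨u1, u2, u3, u4, u5, u6, u7⟩ := hup M K hK
  have hst_spec : ∀ l : M, Ord l → IsH K l (hst K l) := by
    intro l hl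
    obtain ⟨k, hk⟩ := htt l hl
    exact the_spec (p := fun k : M => IsH K l k) ⟨k, hk, fun k' hk' => u2 l k' k hk' hk⟩
  have hG_ord : ∀ x : M, Ord x → Ord (hG K x) := by
    intro x hx
    refine Ord_sUn ?_
    intro y hy
    rw [mem_ins] at hy
    rcases hy with hy | rfl
    · rw [mem_img] at hy
      obtain ⟨c, hc, rfl⟩ := hy
      exact Ord_suc (hst_spec c (hx.mem hc)).1
    · exact Ord_suc hx
  have hG_self : ∀ x : M, Sub x (hG K x) := by
    intro x z hz
    unfold hG
    rw [mem_sUn]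
    exact ⟨suc x, by rw [mem_ins]; exact Or.inr rfl, by rw [mem_suc]; exact Or.inl hz⟩
  have hG_val : ∀ x c : M, E c x → E (hst K c) (hG K x) := by
    intro x c hc
    unfold hG
    rw [mem_sUn]
    refine ⟨suc (hst K c), ?_, by rw [mem_suc]; exact Or.inr rfl⟩
    rw [mem_ins, mem_img]
    exact Or.inl ⟨c, hc, rfl⟩
  obtain ⟨r0, hr0, hr0'⟩ := exists_ord_gt (upair r ρ)
  have h1 : E r r0 := hr0' r (by simp) hr
  have h2 : E ρ r0 := hr0' ρ (by simp) hρ.1
  have hfn : Fn1 (fun n : M => orec r0 (fun x => hG K x) n) := by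
    have := hG_df K
    infer_instance
  have hord : ∀ n : M, E n om → Ord (orec r0 (fun x => hG K x) n) := by
    refine om_ind (C := fun n : M => Ord (orec r0 (fun x => hG K x) n)) ?_ ?_ ?_
    · exact Ord_df.comp1 hfn
    · rw [orec_zero (hG_df K)]; exact hr0
    · intro n hn ih
      rw [orec_suc (hG_df K) hn]
      exact hG_ord _ ih
  have hmem : ∀ z : M, E z (sUn (img om (fun n : M => orec r0 (fun x => hG K x) n))) ↔
      ∃ n : M, E n om ∧ E z (orec r0 (fun x => hG K x) n) := by
    intro z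
    rw [mem_sUn]
    constructor
    · rintro ⟨y, hy, hz⟩
      rw [mem_img' hfn] at hy
      obtain ⟨n, hn, rfl⟩ := hy
      exact ⟨n, hn, hz⟩
    · rintro ⟨n, hn, hz⟩
      exact ⟨_, (mem_img' hfn).2 ⟨n, hn, rfl⟩, hz⟩
  have hemp : E (emp : M) om := mem_om.2 fun z hz => hz.1
  have hlo : Ord (sUn (img om (fun n : M => orec r0 (fun x => hG K x) n))) := by
    refine Ord_sUn ?_
    intro y hy
    rw [mem_img' hfn] at hy
    obtain ⟨n, hn, rfl⟩ := hy
    exact hord n hn
  have hr0l : Sub r0 (sUn (img om (fun n : M => orec r0 (fun x => hG K x) n))) := by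
    intro z hz
    rw [hmem]
    refine ⟨emp, hemp, ?_⟩
    rw [orec_zero (hG_df K)]
    exact hz
  refine ⟨sUn (img om (fun n : M => orec r0 (fun x => hG K x) n)), hr0l _ h1, hlo, ?_, ?_⟩
  · intro hc
    exact hρ.2.1 (u7 ρ (u6 _ ρ hlo (hr0l _ h2) hc))
  · intro l' hl'
    have hol : Ord l' := hlo.mem hl'
    obtain ⟨n, hn, hz⟩ := (hmem _).1 hl'
    refine ⟨hst K l', ?_, hst_spec l' hol⟩
    rw [hmem]
    refine ⟨suc n, suc_mem_om hn, ?_⟩
    rw [orec_suc (hG_df K) hn]
    exact hG_val _ _ hz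

end SW
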