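import Pool.Agent.H35.SW.CDefs

/-!
POS: numbering of the fibres of a good family.
-/

set_option linter.unusedVariables false
set_option synthInstance.maxSize 100000

namespace SW

section
variable {M : Type} [SetStr M] [ZF M]

/-- the sections of `S` at `b` and `b'` agree -/
def PSame (K S b b' : M) : Prop :=
  ∀ m d : M, E m K → (E (opair (opair b m) d) S ↔ E (opair (opair b' m) d) S)

theorem PSame_df : Df (fun w : Fin 4 → M => PSame (w 0) (w 1) (w 2) (w 3)) := by
  unfold PSame; infer_instance

instance {n : ℕ} {t s u x : (Fin n → M) → M} [ht : DfT t] [hs : DfT s] [hu : DfT u] [hx : DfT x] :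
    Df (fun v => PSame (t v) (s v) (u v) (x v)) :=
  PSame_df.comp4 (R := fun a b c d => PSame a b c d) ht hs hu hx

/-- the recursion step -/
noncomputable def posF (K S x g : M) : M :=
  img (sep x (fun b : M => PSame K S b x)) (fun b : M => the (fun w : M => E (opair b w) g))

theorem posF_df (K S : M) : Fn2 (fun x g : M => posF K S x g) := by
  unfold posF; infer_instance

/-- the number of `b` in its fibre -/
noncomputable def pos (K S b : M) : M := mrec (fun x g => posF K S x g) b

theorem pos_df (K S : M) : Fn1 (fun b : M => pos K S b) :=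
  mrec_df (hF := posF_df K S)

instance {K S : M} {n : ℕ} {t : (Fin n → M) → M} [ht : DfT t] : DfT (fun v => pos K S (t v)) :=
  (pos_df K S).comp1 ht

theorem mem_pos {K S b y : M} : E y (pos K S b) ↔ ∃ b', E b' b ∧ PSame K S b' b ∧
    y = pos K S b' := by
  have h1 : pos K S b = posF K S b (gr b (fun c => pos K S c)) :=
    mrec_eq (posF_df K S) b
  rw [h1]
  unfold posF
  rw [mem_img]
  have h2 : ∀ b', E b' b → the (fun w : M => E (opair b' w) (gr b (fun c => pos K S c)))
      = pos K S b' := by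
    intro b' hb'
    refine the_eq ((opair_mem_gr (pos_df K S)).2 ⟨hb', rfl⟩) ?_
    intro z hz
    exact ((opair_mem_gr (pos_df K S)).1 hz).2
  constructor
  · rintro ⟨x, hx, rfl⟩
    rw [mem_sep] at hx
    exact ⟨x, hx.1, hx.2, h2 x hx.1⟩
  · rintro ⟨x, hx, hs, rfl⟩
    exact ⟨x, mem_sep.2 ⟨hx, hs⟩, (h2 x hx).symm⟩

theorem PSame.trans {K S a b c : M} (h : PSame K S a b) (h' : PSame K S b c) : PSame K S a c :=
  fun m d hm => (h m d hm).trans (h' m d hm)

theorem pos_ord {K S : M} : ∀ b : M, Ord b → Ord (pos K S b) := by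
  intro b
  refine mem_induction (C := fun b : M => Ord b → Ord (pos K S b)) inferInstance ?_ b
  intro b ih hb
  refine ⟨fun y hy z hz => ?_, fun y hy => ?_⟩
  · rw [mem_pos] at hy
    obtain ⟨b', hb', hs, rfl⟩ := hy
    rw [mem_pos] at hz
    obtain ⟨b'', hb'', hs', rfl⟩ := hz
    rw [mem_pos]
    exact ⟨b'', hb.trans hb' hb'', hs'.trans hs, rfl⟩
  · rw [mem_pos] at hy
    obtain ⟨b', hb', hs, rfl⟩ := hy
    exact (ih b' hb' (hb.mem hb')).1

theorem tripleIn_iff' {a b c R : M} : TripleIn a b c R ↔ E (opair (opair a b) c) R := by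
  unfold TripleIn
  constructor
  · rintro ⟨y, hy, h⟩
    rw [isOP_iff] at hy
    rw [pairIn_iff] at h
    rwa [hy] at h
  · intro h
    exact ⟨opair a b, isOP_iff.2 rfl, pairIn_iff.2 h⟩

end

/-- POS -/
theorem pos_mod : POSStmt := by
  intro M _ _ K k l S hK hk hl hS
  obtain ⟨hS1, hS2, hS3⟩ := hS
  have hpl : ∀ b, E b k → E (pos K S b) l := by
    intro b hb
    by_contra hcon
    rw [(pos_ord b (hk.mem hb)).not_mem_iff hl] at hcon
    -- the section of `b`
    have hmem : ∀ m c, E (opair m c) (sep (prod K l)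
        (fun z : M => ∃ m c : M, z = opair m c ∧ E (opair (opair b m) c) S)) ↔
        (E m K ∧ E c l) ∧ E (opair (opair b m) c) S := by
      intro m c
      rw [mem_sep, mem_prod]
      constructor
      · rintro ⟨h1, m', c', h2, h3⟩
        rw [opair_inj] at h2
        obtain ⟨rfl, rfl⟩ := h2
        exact ⟨h1, h3⟩
      · rintro ⟨h1, h2⟩
        exact ⟨h1, m, c, rfl, h2⟩
    refine hS3 (sep (prod K l)
      (fun z : M => ∃ m c : M, z = opair m c ∧ E (opair (opair b m) c) S)) ?_
      (sep k (fun b' : M => ∀ m c : M, E m K → TripleIn b' m c S → ∃ m' : M, E m' K ∧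
        PairIn m' c (sep (prod K l)
          (fun z : M => ∃ m c : M, z = opair m c ∧ E (opair (opair b m) c) S)))) ?_ ?_
    · intro m c c' hm h1 h2
      rw [pairIn_iff, hmem] at h1 h2
      exact hS2 b m c c' hb hm (tripleIn_iff'.2 h1.2) (tripleIn_iff'.2 h2.2)
    · intro b'
      rw [mem_sep]
    · refine ⟨sep (prod (prod k (sing emp)) l)
        (fun z : M => ∃ b' : M, E b' b ∧ PSame K S b' b ∧
          z = opair (opair b' emp) (pos K S b')), ?_, ?_⟩
      · intro x m c c' hx hm h1 h2
        rw [tripleIn_iff', mem_sep] at h1 h2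
        obtain ⟨_, b1, hb1, hs1, he1⟩ := h1
        obtain ⟨_, b2, hb2, hs2, he2⟩ := h2
        simp only [opair_inj] at he1 he2
        rw [he1.2, he2.2, ← he1.1.1, ← he2.1.1]
      · intro c hc
        have h1 := hcon c hc
        rw [mem_pos] at h1
        obtain ⟨b', hb', hs, rfl⟩ := h1
        have hb'k : E b' k := hk.trans hb hb'
        refine ⟨b', emp, ?_, (hfClosed_iff.1 hK.1).1, ?_⟩
        · rw [mem_sep]
          refine ⟨hb'k, fun m c hm h2 => ⟨m, hm, ?_⟩⟩
          rw [pairIn_iff, hmem]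
          refine ⟨⟨hm, hS1 b' m c hb'k hm h2⟩, ?_⟩
          rw [tripleIn_iff'] at h2
          exact (hs m c hm).1 h2
        · rw [tripleIn_iff', mem_sep]
          refine ⟨?_, b', hb', hs, rfl⟩
          rw [mem_prod, mem_prod, mem_sing]
          exact ⟨⟨hb'k, rfl⟩, hc⟩
  refine ⟨gr k (fun b => pos K S b), ?_, ?_, ?_⟩
  · intro b hb
    exact ⟨pos K S b, hpl b hb, (opair_mem_gr (pos_df K S)).2 ⟨hb, rfl⟩⟩
  · intro b c c' hb h1 h2
    rw [((opair_mem_gr (pos_df K S)).1 h1).2, ((opair_mem_gr (pos_df K S)).1 h2).2]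
  · intro b b' c hb hb' hs h1 h2
    have e1 := ((opair_mem_gr (pos_df K S)).1 h1).2
    have e2 := ((opair_mem_gr (pos_df K S)).1 h2).2
    have hs' : PSame K S b b' := fun m d hm => by
      rw [← tripleIn_iff', ← tripleIn_iff']; exact hs m d hm
    have hs'' : PSame K S b' b := fun m d hm => (hs' m d hm).symm
    rcases (hk.mem hb).tri (hk.mem hb') with h | h | h
    · exfalso
      have : E (pos K S b) (pos K S b') := mem_pos.2 ⟨b, h, hs', rfl⟩
      rw [← e1, ← e2] at this
      exact not_mem_self _ this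
    · exact h
    · exfalso
      have : E (pos K S b') (pos K S b) := mem_pos.2 ⟨b', h, hs'', rfl⟩
      rw [← e1, ← e2] at this
      exact not_mem_self _ this

end SW
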